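import Pool.Agent.MP_8be872_ag.H70.CCA

/-! The part of the Čech complex over covered charts is acyclic. -/

namespace Pool.Agent.MP_8be872_ag.H70

open Finset H38 H56 H63 MvPolynomial

set_option linter.unusedSectionVars false

variable {E O J Γ : Type} [Fintype E] [Fintype O] [Fintype J] [DecidableEq E] [DecidableEq O]
  [DecidableEq J] [AddCommGroup Γ] {Al : Gn E O J → Prop} {c : Gn E O J → Γ}
  {δ : Gn E O J → Op E O J} {f : J → MvPolynomial (E ⊕ J) ℂ} {x : Sp (E ⊕ J) (O ⊕ J)}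
  {E0 Θ : Gn E O J → Prop} {r : Gn E O J → MvPolynomial (E ⊕ J) ℂ} {J₀ J₁ J₂ S : Finset J}
  {p : Bool}

/-- The situation after passing to the associated graded algebra. -/
structure Red (Al : Gn E O J → Prop) (c : Gn E O J → Γ) (δ : Gn E O J → Op E O J)
    (f : J → MvPolynomial (E ⊕ J) ℂ) (E0 Θ : Gn E O J → Prop)
    (r : Gn E O J → MvPolynomial (E ⊕ J) ℂ) (J₀ J₁ J₂ : Finset J) : Prop where
  good : Good Al c δ 0 f
  e0 : ∀ g, E0 g → Al g ∧ g.isLeft ∧ δ g = 0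
  th : ∀ g, Θ g → Al g ∧ g.isRight ∧ δ g = mul (r g)
  rv : ∀ g, (pol (r g) : Sp (E ⊕ J) (O ⊕ J)) ∈ mono (sup E0)
  fv : ∀ j ∈ J₀ ∪ J₁ ∪ J₂, (pol (f j) : Sp (E ⊕ J) (O ⊕ J)) ∈ mono (sup E0)
  d01 : Disjoint J₀ J₁
  d2 : Disjoint J₂ (J₀ ∪ J₁)
  cov : ∀ y : E ⊕ J → ℂ, (∀ e, ¬ E0 (.inl e) → y e = 0) → (∀ g, Θ g → eval y (r g) = 0) →
    (∀ j ∈ J₀, eval y (f j) ≠ 0) → ∀ j ∈ J₂, eval y (f j) ≠ 0 → ∃ i ∈ J₁, eval y (f i) ≠ 0

/-- The pattern over the charts `J₂`. -/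
def pt (J₂ : Finset J) (μ : Gn E O J → ℕ) : Finset J := J₂.filter fun j => μ (ev j) ≠ 0

theorem pt_congr {μ ν : Gn E O J → ℕ} (h : ∀ j ∈ J₂, μ (ev j) = ν (ev j)) : pt J₂ μ = pt J₂ ν :=
  Finset.filter_congr fun j hj => by rw [h j hj]

/-- Monomials with a fixed pattern and parity. -/
def Q (Al : Gn E O J → Prop) (J₀ J₁ J₂ S : Finset J) (p : Bool) (μ : Gn E O J → ℕ) : Prop :=
  cech Al J₀ (J₁ ∪ J₂) μ ∧ od μ = p ∧ pt J₂ μ = S

theorem Q.ev_ne {μ : Gn E O J → ℕ} (h : Q Al J₀ J₁ J₂ S p μ) {j : J} (hj : j ∈ J₀ ∪ S) :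
    μ (ev j) ≠ 0 := by
  rcases Finset.mem_union.1 hj with k | k
  · exact h.1.2.1 j k
  · rw [← h.2.2] at k
    exact (Finset.mem_filter.1 k).2

theorem Q.tv_ne (hE : ∀ j, ¬Al (tv j)) {μ : Gn E O J → ℕ} (h : Q Al J₀ J₁ J₂ S p μ) {j : J}
    (hj : μ (tv j) ≠ 0) : μ (ev j) ≠ 0 := by
  rcases h.1.1 _ hj with k | ⟨i, e, k⟩ | ⟨i, _, e⟩
  · exact (hE j k).elim
  · obtain rfl : j = i := by simpa using e
    exact k
  · simp at e

theorem Q.plus (hE : ∀ j, ¬Al (ev j)) {μ ν : Gn E O J → ℕ} (h : Q Al J₀ J₁ J₂ S p μ) {a : Bool}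
    (ha : od ν = a) (hν : ∀ g, ν g ≠ 0 → Al g ∨ ∃ j, g = tv j ∧ μ (ev j) ≠ 0) :
    Q Al J₀ J₁ J₂ S (xor a p) (ν + μ) := by
  refine ⟨cech_plus h.1 hν, by rw [od_add, ha, h.2.1], (pt_congr fun j _ => ?_).trans h.2.2⟩
  have : ν (ev j) = 0 := by
    by_contra k
    rcases hν _ k with k' | ⟨i, e, _⟩
    · exact hE j k'
    · simp at e
  rw [Pi.add_apply, this, zero_add]

theorem Q.minus (hS : S.Nonempty) {μ : Gn E O J → ℕ} {g₀ : Gn E O J}
    (h : Q Al J₀ J₁ J₂ S p (μ + Pi.single g₀ 1)) (h1 : ∀ j, μ (tv j) ≠ 0 → ev j ≠ g₀)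
    (h2 : ∀ j ∈ J₀ ∪ J₂, ev j ≠ g₀) : Q Al J₀ J₁ J₂ S (xor g₀.isRight p) μ := by
  have e : pt J₂ μ = S := (pt_congr fun j hj => by
    rw [Pi.add_apply, Pi.single_eq_of_ne (h2 j (Finset.mem_union_right _ hj)), add_zero]).trans
      h.2.2
  obtain ⟨j, hj⟩ := hS
  rw [← e] at hj
  refine ⟨cech_minus h.1 h1 (fun j hj => h2 j (Finset.mem_union_left _ hj))
    ⟨j, (Finset.mem_filter.1 hj).2⟩, ?_, e⟩
  rw [← h.2.1, od_add, od_single]
  cases g₀.isRight <;> cases od μ <;> rfl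

/-- Monomials of the part over the charts `J₂`. -/
def CV (Al : Gn E O J → Prop) (c : Gn E O J → Γ) (J₀ J₁ J₂ : Finset J) (γ : Γ) (p : Bool)
    (μ : Gn E O J → ℕ) : Prop :=
  (cech Al J₀ (J₁ ∪ J₂) μ ∧ ws c μ = γ ∧ od μ = p) ∧ ∃ j ∈ J₂, μ (ev j) ≠ 0

theorem CV_eq {γ : Γ} : mono (CV Al c J₀ J₁ J₂ γ p) =
    ZZ Al c J₀ (J₁ ∪ J₂) γ p ⊓ mono fun μ => ∃ j ∈ J₂, μ (ev j) ≠ 0 := mono_and

variable (R : Red Al c δ f E0 Θ r J₀ J₁ J₂)
include R

theorem Red.dl_tv {j : J} (hj : j ∈ J₀ ∪ J₁ ∪ J₂) : dl δ f (tv j) = 0 := by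
  have h := vf_mul_comm (δ := δ) (fun g => wle (R.good.dw g) fun _ _ => trivial)
    (mle (R.fv j hj) fun μ hμ g hg => (R.e0 g (hμ g hg)).2.2)
  change -(gn (tv j) * gn (tv j) * (vf δ * mul (f j) - mul (f j) * vf δ)) = 0
  rw [h, sub_self, mul_zero, neg_zero]

theorem Red.comm_mul {q : MvPolynomial (E ⊕ J) ℂ} (hq : (pol q : Sp (E ⊕ J) (O ⊕ J)) ∈
    mono (sup fun g => E0 g ∨ ∃ j ∈ J₀ ∪ J₁ ∪ J₂, g = tv j)) :
    Dloc δ 0 f J₁ * mul q = mul q * Dloc δ 0 f J₁ := by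
  have h := vf_mul_comm (δ := dl δ f) (fun g => wle (R.good.dl_odd g) fun _ _ => trivial)
    (mle hq fun μ hμ g hg => by
      rcases hμ g hg with k | ⟨j, hj, rfl⟩
      · obtain ⟨k1, _, k3⟩ := R.e0 g k
        rcases g with (e | j) | o
        · exact k3
        · exact (R.good.alT j k1).elim
        · exact k3
      · exact R.dl_tv hj)
  rw [R.good.Dloc_eq, add_zero, add_mul, mul_add, h, Finset.sum_mul, Finset.mul_sum]
  congr 1
  exact Finset.sum_congr rfl fun i _ =>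
    (mul_comm_words q (gn_mem_words (P := fun _ => True) trivial)).symm

theorem Red.comm_dr {g₀ : Gn E O J} (h0 : ¬Al g₀) (h1 : dl δ f g₀ = 0) :
    dr g₀ * Dloc δ 0 f J₁ = sg g₀.isRight • (Dloc δ 0 f J₁ * dr g₀) +
      ∑ j ∈ J₁, if g₀ = ev j then 1 else 0 := by
  rw [R.good.Dloc_eq, add_zero, add_mul, mul_add, dr_vf g₀ (dl_free R.good h0 h1), smul_add,
    add_assoc, Finset.sum_mul, Finset.mul_sum, Finset.smul_sum, ← Finset.sum_add_distrib]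
  congr 1
  refine Finset.sum_congr rfl fun j _ => ?_
  rw [dr_mul_gn, Sum.isRight_inr, Bool.and_true]

theorem Red.mul_mem {q : MvPolynomial (E ⊕ J) ℂ} (hq : (pol q : Sp (E ⊕ J) (O ⊕ J)) ∈
    mono (sup fun g => E0 g ∨ ∃ j ∈ J₀ ∪ S, g = tv j)) (hx : x ∈ mono (Q Al J₀ J₁ J₂ S p)) :
    mul q x ∈ mono (Q Al J₀ J₁ J₂ S p) := by
  refine words_apply_mem (mul_words hq) hx fun a b ha hb => ?_
  have h := hb.plus R.good.alE (od_even ha.2) fun g hg => (ha.1 g hg).imp (fun k => (R.e0 g k).1)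
    fun ⟨j, hj, e⟩ => ⟨j, e, hb.ev_ne hj⟩
  rwa [Bool.false_xor] at h

theorem Red.theta {θ : Gn E O J} (hθ : Θ θ) (hx : x ∈ mono (Q Al J₀ J₁ J₂ S p))
    (hD : Dloc δ 0 f J₁ x ∈ rel f) :
    ∃ y ∈ mono (Q Al J₀ J₁ J₂ S (!p)), mul (r θ) x - Dloc δ 0 f J₁ y ∈ rel f := by
  obtain ⟨h1, h2, h3⟩ := R.th θ hθ
  have h4 := R.good.Dloc_gn J₁ θ
  have h5 : dl δ f θ = mul (r θ) := by
    obtain ⟨o, rfl⟩ := Sum.isRight_iff.1 h2
    exact h3
  rw [h2, h5, sgT, sub_neg_eq_add] at h4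
  refine ⟨gn θ x, gn_mem θ hx fun μ hμ => ?_, ?_⟩
  · have h := hμ.plus R.good.alE (od_single θ) fun g hg => Or.inl (sup_single.2 h1 g hg)
    rwa [h2, Bool.true_xor, add_comm] at h
  · rw [← h4, LinearMap.add_apply, Module.End.mul_apply, Module.End.mul_apply, add_sub_cancel_left]
    exact words_rel (gn_mem_words (P := fun _ => True) trivial) hD

theorem Red.power (hS : S.Nonempty) {i : J} (hi : i ∈ J₁) (hx : x ∈ mono (Q Al J₀ J₁ J₂ S p))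
    (hD : Dloc δ 0 f J₁ x ∈ rel f) :
    ∃ N : ℕ, ∃ y ∈ mono (Q Al J₀ J₁ J₂ S (!p)), mul (f i ^ N) x - Dloc δ 0 f J₁ y ∈ rel f := by
  have hf := R.good.tfree
  have hi' : i ∈ J₀ ∪ J₁ ∪ J₂ := Finset.mem_union_left _ (Finset.mem_union_right _ hi)
  have hfi : (pol (f i) : Sp (E ⊕ J) (O ⊕ J)) ∈
      mono (sup fun g => E0 g ∨ ∃ j ∈ J₀ ∪ S, g = tv j) :=
    mle (R.fv i hi') fun μ hμ g hg => Or.inl (hμ g hg)
  obtain ⟨w, hw⟩ := rel_dec hf i hD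
  obtain ⟨x₁, e₁⟩ : ∃ x₁, x₁ = proj (fun μ => μ (ev i) ≠ 0) x := ⟨_, rfl⟩
  have hx₁ : x₁ ∈ mono (Q Al J₀ J₁ J₂ S p) ⊓ mono fun μ => μ (ev i) ≠ 0 :=
    e₁ ▸ ⟨proj_mem_of hx, proj_mem x⟩
  have hx₀ : x - x₁ ∈ mono (Q Al J₀ J₁ J₂ S p) := sub_mem hx hx₁.1
  have hx₀' : x - x₁ ∈ mono fun μ => μ (tv i) = 0 := by
    have h1 : x - x₁ ∈ mono fun μ => Q Al J₀ J₁ J₂ S p μ ∧ ¬μ (ev i) ≠ 0 := by
      rw [mono_and]
      exact ⟨hx₀, e₁ ▸ sub_proj_mem x⟩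
    refine mle h1 fun μ hμ => ?_
    by_contra k
    exact hμ.2 (hμ.1.tv_ne R.good.alT k)
  have c1 : ∀ u ∈ mono (Q Al J₀ J₁ J₂ S p) ⊓ mono fun μ => μ (ev i) ≠ 0,
      mul (f i) u ∈ mono (Q Al J₀ J₁ J₂ S p) ⊓ mono fun μ => μ (ev i) ≠ 0 := fun u hu =>
    ⟨R.mul_mem hfi hu.1, words_apply_mem (mul_words hfi) hu.2 fun a b _ hb => by
      rw [Pi.add_apply]; omega⟩
  have c2 : ∀ u ∈ mono (Q Al J₀ J₁ J₂ S p) ⊓ mono fun μ => μ (ev i) ≠ 0,
      gn (tv i) u ∈ mono (Q Al J₀ J₁ J₂ S p) ⊓ mono fun μ => μ (ev i) ≠ 0 := by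
    intro u hu
    rw [← mono_and] at hu ⊢
    refine gn_mem _ hu fun μ hμ => ⟨?_, by rw [Pi.add_apply]; have := hμ.2; omega⟩
    have h := hμ.1.plus R.good.alE (od_single (tv i)) fun g hg =>
      Or.inr ⟨i, sup_single (A := (· = tv i)).2 rfl g hg, hμ.2⟩
    rwa [Sum.isRight_inl, Bool.false_xor, add_comm] at h
  have c3 : ∀ u ∈ mono (Q Al J₀ J₁ J₂ S p) ⊓ mono fun μ => μ (ev i) ≠ 0,
      dr (tv i) u ∈ mono (Q Al J₀ J₁ J₂ S p) ⊓ mono fun μ => μ (ev i) ≠ 0 := by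
    intro u hu
    rw [← mono_and] at hu ⊢
    refine dr_mem _ hu fun μ hμ => ⟨?_, by simpa using hμ.2⟩
    have h := hμ.1.minus hS (fun j _ => by simp) fun j _ => by simp
    rwa [Sum.isRight_inl, Bool.false_xor] at h
  obtain ⟨N, hN⟩ := clear hf i {x₁, gn (ev i) w}
  obtain ⟨ρ, p1, p2, p3, p4, p5, p6⟩ := hN N le_rfl
  obtain ⟨z, hz, hz'⟩ := p2 x₁ (by simp)
  have a1 : ρ x = ρ x₁ + mul (f i ^ N) (x - x₁) := by
    rw [← p4 _ hx₀', ← map_add, add_sub_cancel]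
  have a2 : ρ x - mul (f i ^ N) x ∈ rel f := by
    rw [a1, map_sub, show ρ x₁ + (mul (f i ^ N) x - mul (f i ^ N) x₁) - mul (f i ^ N) x =
      ρ x₁ - mul (f i ^ N) x₁ by abel, hz]
    exact rel_gen i (hz' _ c1 c2 c3 hx₁).2
  have a3 : ∀ n : ℕ, mul (f i ^ n) (x - x₁) ∈
      mono (Q Al J₀ J₁ J₂ S p) ⊓ mono fun μ => μ (tv i) = 0 := by
    intro n
    induction n with
    | zero =>
      rw [pow_zero, show (mul 1 : Op E O J) = 1 from map_one mulA]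
      exact ⟨hx₀, hx₀'⟩
    | succ n ih =>
      rw [pow_succ', mul_mul, Module.End.mul_apply]
      exact ⟨R.mul_mem hfi ih.1, words_apply_mem (mul_words (hf i)) ih.2 fun a b ha hb => by
        rw [Pi.add_apply, ha.1 i, hb]⟩
  have a4 : ρ x ∈ mono fun μ => Q Al J₀ J₁ J₂ S p μ ∧ μ (tv i) = 0 := by
    rw [mono_and, a1]
    exact add_mem ⟨(p6 _ c1 c2 c3 x₁ hx₁).1, p1 x₁ (by simp)⟩ (a3 N)
  have hT := R.dl_tv hi'
  have b1 : Dloc δ 0 f J₁ * ρ = ρ * Dloc δ 0 f J₁ := by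
    refine p5 _ ?_ ?_ (R.comm_mul (mle (R.fv i hi') fun μ hμ g hg => Or.inl (hμ g hg)))
    · have h := R.good.Dloc_gn J₁ (tv i)
      rwa [hT, Sum.isRight_inl, sg_false, one_smul, sub_eq_zero] at h
    · have h := R.comm_dr (R.good.alT i) hT
      rw [Sum.isRight_inl, sg_false, one_smul,
        Finset.sum_eq_zero fun j _ => if_neg (by simp), add_zero] at h
      exact h.symm
  have b2 : dr (ev i) * Dloc δ 0 f J₁ = -(Dloc δ 0 f J₁ * dr (ev i)) + 1 := by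
    have h := R.comm_dr (R.good.alE i) (dl_ev R.good i)
    rw [Sum.isRight_inr, sgT,
      Finset.sum_eq_single_of_mem i hi fun j _ e => if_neg (by simpa using e.symm),
      if_pos rfl] at h
    exact h
  have b3 : dr (ev i) (ρ (Dloc δ 0 f J₁ x)) ∈ rel f := by
    have h := hw ρ fun j hj => by
      have hm := LL_mem (O := O) hf hj
      refine p5 _ ?_ ?_ (mul_comm_words _ hm).symm
      · have h := words_comm (wle hm fun μ hμ => hμ.2)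
          (gn_mem_words (P := fun μ => od μ = false) (od_single (tv i)))
        rwa [Bool.and_false, sg_false, one_smul] at h
      · have h := dr_comm (tv i) (wle hm fun μ hμ => ⟨hμ.1.1, hμ.2⟩)
        rw [Sum.isRight_inl, Bool.false_and, sg_false, one_smul] at h
        exact h.symm
    have h0 : ρ (LL f i w) = 0 := p3 (gn (ev i) w) (by simp)
    rwa [map_sub, h0, sub_zero] at h
  refine ⟨N, dr (ev i) (ρ x), dr_mem _ a4 fun μ hμ => ?_, ?_⟩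
  · have h := hμ.1.minus hS (fun j hj e => ?_) fun j hj e => ?_
    · rwa [Sum.isRight_inr, Bool.true_xor] at h
    · obtain rfl : j = i := by simpa using e
      exact hj (by simpa using hμ.2)
    · obtain rfl : j = i := by simpa using e
      rcases Finset.mem_union.1 hj with k | k
      · exact Finset.disjoint_left.1 R.d01 k hi
      · exact Finset.disjoint_left.1 R.d2 k (Finset.mem_union_right _ hi)
  · have h1 := LinearMap.congr_fun b2 (ρ x)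
    have h2 := LinearMap.congr_fun b1 x
    simp only [Module.End.mul_apply, LinearMap.add_apply, LinearMap.neg_apply,
      Module.End.one_apply] at h1 h2
    rw [h2] at h1
    have h3 : mul (f i ^ N) x - Dloc δ 0 f J₁ (dr (ev i) (ρ x)) =
        dr (ev i) (ρ (Dloc δ 0 f J₁ x)) - (ρ x - mul (f i ^ N) x) := by
      rw [h1]; abel
    rw [h3]
    exact sub_mem b3 a2

theorem Red.fixed (hS : S.Nonempty) (hS' : S ⊆ J₂) (hx : x ∈ mono (Q Al J₀ J₁ J₂ S p))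
    (hD : Dloc δ 0 f J₁ x ∈ rel f) :
    ∃ y ∈ mono (Q Al J₀ J₁ J₂ S (!p)), x - Dloc δ 0 f J₁ y ∈ rel f := by
  classical
  obtain ⟨K, hK⟩ : ∃ K : Gn E O J → Prop, K = fun g => ¬(E0 g ∨ ∃ j ∈ J₀ ∪ S, g = tv j) :=
    ⟨_, rfl⟩
  have k1 : ∀ q, (pol (kill K q) : Sp (E ⊕ J) (O ⊕ J)) ∈
      mono (sup fun g => E0 g ∨ ∃ j ∈ J₀ ∪ S, g = tv j) := fun q =>
    mle (kill_mem K q) fun μ hμ g hg => by simpa only [hK, not_not] using hμ g hg
  have k2 : ∀ q, (pol q : Sp (E ⊕ J) (O ⊕ J)) ∈ mono (sup E0) → kill K q = q := fun q hq =>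
    kill_self (mle hq fun μ hμ g hg => by rw [hK]; exact not_not.2 (Or.inl (hμ g hg)))
  have sub : J₀ ∪ S ⊆ J₀ ∪ J₁ ∪ J₂ :=
    Finset.union_subset_union Finset.subset_union_left hS'
  let I : Ideal (MvPolynomial (E ⊕ J) ℂ) :=
    { carrier := {q | ∃ y ∈ mono (Q Al J₀ J₁ J₂ S (!p)),
        mul (kill K q) x - Dloc δ 0 f J₁ y ∈ rel f}
      add_mem' := by
        rintro a b ⟨y, hy, ha⟩ ⟨y', hy', hb⟩
        refine ⟨y + y', add_mem hy hy', ?_⟩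
        rw [map_add, mul_add', LinearMap.add_apply, map_add, add_sub_add_comm]
        exact add_mem ha hb
      zero_mem' := ⟨0, zero_mem _, by
        rw [map_zero, show (mul 0 : Op E O J) = 0 from map_zero mulA]
        simp⟩
      smul_mem' := by
        rintro a b ⟨y, hy, hb⟩
        refine ⟨mul (kill K a) y, R.mul_mem (k1 a) hy, ?_⟩
        have h := LinearMap.congr_fun (R.comm_mul (mle (k1 a) fun μ hμ g hg =>
          (hμ g hg).imp_right fun ⟨j, hj, e⟩ => ⟨j, sub hj, e⟩)) y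
        rw [Module.End.mul_apply, Module.End.mul_apply] at h
        rw [smul_eq_mul, map_mul, mul_mul, Module.End.mul_apply, h, ← map_sub]
        exact words_rel (mul_words (k1 a)) hb }
  obtain ⟨q, ⟨y, hy, hq⟩, hq'⟩ := nullst (fun e => ¬K (.inl e)) I fun y _ => by
    by_contra hc
    have hc' : ∀ q ∈ I, eval y q = 0 := fun q hq => by
      by_contra k
      exact hc ⟨q, hq, k⟩
    have ee : ∀ q, (pol q : Sp (E ⊕ J) (O ⊕ J)) ∈ mono (sup E0) →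
        eval (fun e => if E0 (.inl e) then y e else 0) q = eval y q :=
      fun q hq => eval_congr' hq fun e he => if_pos he
    have hu : ∀ j ∈ J₀ ∪ S, eval (fun e => if E0 (.inl e) then y e else 0) (f j) ≠ 0 := by
      intro j hj
      have h1 : kill K (X (.inr j)) = X (.inr j) := by
        rw [kill, aeval_X, if_neg (by rw [hK]; exact not_not.2 (Or.inr ⟨j, hj, rfl⟩))]
      have h2 := hc' (f j * X (.inr j) - 1) ⟨0, zero_mem _, by
        rw [map_sub, map_mul, map_one, k2 _ (R.fv j (sub hj)), h1, map_zero, sub_zero]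
        exact rel_gen j (mle hx fun μ hμ => hμ.ev_ne hj)⟩
      rw [ee _ (R.fv j (sub hj))]
      intro h3
      simp [h3] at h2
    obtain ⟨j, hj⟩ := hS
    obtain ⟨i, hi, h1⟩ := R.cov (fun e => if E0 (.inl e) then y e else 0) (fun e he => if_neg he)
      (fun g hg => by
        rw [ee _ (R.rv g)]
        refine hc' _ ?_
        obtain ⟨y', hy', h'⟩ := R.theta hg hx hD
        exact ⟨y', hy', by rwa [k2 _ (R.rv g)]⟩)
      (fun j hj => hu j (Finset.mem_union_left _ hj)) j (hS' hj)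
      (hu j (Finset.mem_union_right _ hj))
    have hi' : i ∈ J₀ ∪ J₁ ∪ J₂ := Finset.mem_union_left _ (Finset.mem_union_right _ hi)
    obtain ⟨N, y', hy', h'⟩ := R.power ⟨j, hj⟩ hi hx hD
    have h2 := hc' (f i ^ N) ⟨y', hy', by rwa [map_pow, k2 _ (R.fv i hi')]⟩
    rw [ee _ (R.fv i hi')] at h1
    rw [map_pow] at h2
    exact pow_ne_zero N h1 h2
  have h1 : Ideal.span {q | ∃ e, ¬¬K (.inl e) ∧ q = X e} ≤ RingHom.ker (kill K) := by
    rw [Ideal.span_le]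
    rintro _ ⟨e, he, rfl⟩
    rw [SetLike.mem_coe, RingHom.mem_ker, kill, aeval_X, if_pos (not_not.1 he)]
  have h2 := RingHom.mem_ker.1 (h1 hq')
  rw [map_sub, map_one, sub_eq_zero] at h2
  rw [← h2, show (mul 1 : Op E O J) = 1 from map_one mulA] at hq
  exact ⟨y, hy, hq⟩

omit R in
theorem Dloc_CV {ω : Op E O J} (h : Good Al c δ ω f) {A : Finset J} (hA : A ⊆ J₀ ∪ (J₁ ∪ J₂))
    {γ : Γ} (hx : x ∈ mono (CV Al c J₀ J₁ J₂ γ (!p))) :
    Dloc δ ω f A x ∈ mono (CV Al c J₀ J₁ J₂ γ p) := by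
  rw [CV_eq] at hx ⊢
  refine ⟨Bool.not_not p ▸ h.Dloc_ZZ hA hx.1, h.Dloc_mem A hx.2 h.dl_mem h.ow ?_ ?_ ?_⟩
  · rintro g μ ν ⟨j, hj, e⟩ b
    rw [Pi.add_apply, Pi.single_eq_of_ne (b.1.2 j).symm, add_zero] at e
    exact ⟨j, hj, by rw [Pi.add_apply]; omega⟩
  · rintro a b _ ⟨j, hj, e⟩
    exact ⟨j, hj, by rw [Pi.add_apply]; omega⟩
  · rintro i _ μ ⟨j, hj, e⟩
    exact ⟨j, hj, by rw [Pi.add_apply]; omega⟩

theorem Red.part {γ : Γ} (hx : x ∈ mono (CV Al c J₀ J₁ J₂ γ p)) (hD : Dloc δ 0 f J₁ x ∈ rel f)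
    (S : Finset J) : ∃ y ∈ mono (CV Al c J₀ J₁ J₂ γ (!p)),
      proj (fun μ => pt J₂ μ = S) x - Dloc δ 0 f J₁ y ∈ rel f := by
  have d21 : Disjoint J₂ J₁ := R.d2.mono_right Finset.subset_union_right
  have top : ∀ y : Sp (E ⊕ J) (O ⊕ J), y ∈ mono fun _ => True :=
    fun y => mem_mono.2 fun _ _ _ => trivial
  by_cases hS : S.Nonempty ∧ S ⊆ J₂
  · have h0 : proj (fun μ => pt J₂ μ = S) x ∈
        mono fun μ => CV Al c J₀ J₁ J₂ γ p μ ∧ pt J₂ μ = S := by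
      rw [mono_and]
      exact ⟨proj_mem_of hx, proj_mem x⟩
    have h2 : proj (fun μ => pt J₂ μ = S) (Dloc δ 0 f J₁ x) =
        Dloc δ 0 f J₁ (proj (fun μ => pt J₂ μ = S) x) :=
      proj_comm (A := fun _ => True)
        (fun y hy => Dloc_pat R.good d21 (fun μ ν h e => (pt_congr h).symm.trans e)
          (mle hy fun _ h => h.2))
        (fun y hy => Dloc_pat R.good d21 (P := fun μ => ¬pt J₂ μ = S)
          (fun μ ν h e e' => e ((pt_congr h).trans e')) (mle hy fun _ h => h.2)) (top x)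
    have h3 := proj_rel_odd (P := fun μ => pt J₂ μ = S)
      (fun μ ν h e => (pt_congr fun j _ => h (.inr j)).symm.trans e) hD
    rw [h2] at h3
    obtain ⟨y, hy, h4⟩ := R.fixed hS.1 hS.2
      (mle h0 fun μ hμ => (⟨hμ.1.1.1, hμ.1.1.2.2, hμ.2⟩ : Q Al J₀ J₁ J₂ S p μ)) h3
    have h5 : proj (fun μ => ws c μ = γ) y ∈
        mono fun μ => Q Al J₀ J₁ J₂ S (!p) μ ∧ ws c μ = γ := by
      rw [mono_and]
      exact ⟨proj_mem_of hy, proj_mem y⟩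
    refine ⟨proj (fun μ => ws c μ = γ) y, mle h5 fun μ hμ => ⟨⟨hμ.1.1, hμ.2, hμ.1.2.1⟩, ?_⟩, ?_⟩
    · obtain ⟨j, hj⟩ := hS.1
      exact ⟨j, hS.2 hj, hμ.1.ev_ne (Finset.mem_union_right _ hj)⟩
    · have h6 := R.good.proj_wt_rel (· = γ) h4
      have h7 : proj (fun μ => ws c μ = γ) (Dloc δ 0 f J₁ y) =
          Dloc δ 0 f J₁ (proj (fun μ => ws c μ = γ) y) :=
        proj_comm (A := fun _ => True)
          (fun z hz => R.good.Dloc_wt J₁ (· = γ) (mle hz fun _ h => h.2))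
          (fun z hz => R.good.Dloc_wt J₁ (¬· = γ) (mle hz fun _ h => h.2)) (top y)
      rwa [map_sub, h7, proj_eq_self (mle h0 fun μ hμ => hμ.1.1.2.1)] at h6
  · refine ⟨0, zero_mem _, ?_⟩
    rw [proj_eq_zero (mle hx fun μ hμ e => hS ?_), map_zero, sub_zero]
    · exact zero_mem _
    · obtain ⟨j, hj, k⟩ := hμ.2
      rw [← e]
      exact ⟨⟨j, Finset.mem_filter.2 ⟨hj, k⟩⟩, Finset.filter_subset _ _⟩

theorem Red.exC (γ : Γ) : Ex (Dloc δ 0 f J₁) (mono (CV Al c J₀ J₁ J₂ γ (!p)))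
    (mono (CV Al c J₀ J₁ J₂ γ p)) (rel f) := by
  intro x hx hD
  obtain ⟨s, hs, -⟩ := exists_sum_proj (pt J₂) x
  choose y hy hy' using R.part hx hD
  refine ⟨∑ S ∈ s, y S, sum_mem fun S _ => hy S, ?_⟩
  have h := sum_mem (t := s) fun S _ => hy' S
  rwa [Finset.sum_sub_distrib, ← hs, ← map_sum] at h

theorem Red.exB (γ : Γ) : Ex (Dloc δ 0 f (J₁ ∪ J₂)) (mono (CV Al c J₀ J₁ J₂ γ (!p)))
    (mono (CV Al c J₀ J₁ J₂ γ p)) (rel f) := by
  classical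
  have d21 : Disjoint J₂ J₁ := R.d2.mono_right Finset.subset_union_right
  refine ex_cnt (A := fun g => ∃ j ∈ J₂, g = ev j) ?_
    (fun x hx => Dloc_CV R.good Finset.subset_union_right hx) (fun x hx => R.good.Dloc_rel _ hx)
    (R.good.Dloc_sq _) (fun x hx => R.good.Dloc_rel _ hx) (fun k y hy => ⟨?_, ?_⟩) (R.exC γ)
  · rintro _ ⟨j, _, rfl⟩
    rfl
  · refine Dloc_pat R.good d21 (fun μ ν h e => ?_) hy
    rw [← e]
    refine cnt_congr ?_
    rintro _ ⟨j, hj, rfl⟩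
    exact (h j hj).symm
  · rw [R.good.Dloc_eq, R.good.Dloc_eq, Finset.sum_union d21.symm, ← add_assoc,
      LinearMap.add_apply _ (∑ j ∈ J₂, gn (ev j)), add_sub_cancel_left, LinearMap.sum_apply]
    refine sum_mem fun j hj => gn_mem _ hy fun μ hμ => ?_
    rw [cnt_add, cnt_single, if_pos ⟨j, hj, rfl⟩, hμ]
    exact Nat.lt_succ_self k

omit R in
theorem cc : CCStmt := by
  intro E O J Γ _ _ _ _ _ _ _ Al c δ ω f h gh E0 Θ r q J₀ J₁ J₂ hf d01 d2 cov γ p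
  classical
  obtain ⟨gr, hgr⟩ : ∃ gr : Gn E O J → ℕ, ws gr = cnt gh :=
    ⟨fun g => if gh g then 1 else 0, funext fun μ => Finset.sum_congr rfl fun g _ => by
      by_cases k : gh g <;> simp [k]⟩
  have hg : ∀ g, gr g = cnt gh (Pi.single g 1) := fun g => by rw [← hgr, ws_single]
  have g0 : ∀ g, ¬gh g → gr g = 0 := fun g k => by rw [hg, cnt_single, if_neg k]
  have pe : ∀ u : MvPolynomial (E ⊕ J) ℂ,
      (pol u : Sp (E ⊕ J) (O ⊕ J)) ∈ mono fun μ => cnt gh μ = 0 := fun u =>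
    pol_mem.2 fun m _ => by
      by_contra k
      obtain ⟨g, k1, k2⟩ := cnt_ne_zero.1 k
      obtain ⟨o, rfl⟩ := Sum.isRight_iff.1 (q.ghO g k1).2
      simp [ex] at k2
  obtain ⟨δ₀, f₀, h0, -, h1, h2, -, h3⟩ := h.grPart gr
    (fun j => g0 _ fun k => h.alT j (q.ghO _ k).1) (fun j => g0 _ fun k => h.alE j (q.ghO _ k).1)
    (fun g => wle (q.mono_gh g) fun μ hμ => by rwa [hg, hgr])
    (wle q.om fun μ hμ => by rw [hgr]; exact Nat.one_le_iff_ne_zero.2 (cnt_ne_zero.2 hμ))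
  rw [hgr] at h1 h2 h3
  obtain rfl : f = f₀ := funext fun j => pol_inj (O := O ⊕ J) (by
    rw [h1 j, proj_eq_self (pe _)])
  have R : Red Al c δ₀ f E0 Θ r J₀ J₁ J₂ := by
    refine ⟨h0, fun g k => ⟨(q.e0E g k).1, (q.e0E g k).2, ?_⟩,
      fun g k => ⟨(q.thO g k).1, (q.thO g k).2.1, ?_⟩, q.rv, hf, d01, d2, cov⟩
    · refine words_false (wle (h2 g _ (q.e0 g k)).1 fun μ hμ => cnt_ne_zero.2 hμ.1 ?_)
      rw [hμ.2]
      refine g0 g fun k' => ?_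
      obtain ⟨o, rfl⟩ := Sum.isRight_iff.1 (q.ghO g k').2
      simpa using (q.e0E _ k).2
    · obtain ⟨k1, k2⟩ := h2 g _ (q.mono_gh g)
      rw [g0 g (q.thO g k).2.2] at k1 k2
      have k3 : δ₀ g - mul (r g) ∈ words fun μ => cnt gh μ = 0 :=
        sub_mem (wle k1 fun μ hμ => hμ.2) (mul_mem_words_of_pol (pe _))
      have k4 : δ g - mul (r g) - (δ g - δ₀ g) ∈ words fun μ => cnt gh μ ≠ 0 :=
        sub_mem (wle (q.th g k) fun μ hμ => cnt_ne_zero.2 hμ) (wle k2 fun μ hμ => hμ.2.ne')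
      rw [sub_sub_sub_cancel_left] at k4
      exact sub_eq_zero.1 (words_false (wle (words_and k3 k4) fun μ hμ => hμ.2 hμ.1))
  beta_reduce
  rw [← CV_eq, ← CV_eq]
  exact ex_cnt (fun g k => (q.ghO g k).2) (fun x hx => Dloc_CV h Finset.subset_union_right hx)
    (fun x hx => h.Dloc_rel _ hx) (h.Dloc_sq _) (fun x hx => h0.Dloc_rel _ hx) (h3 _) (R.exB γ)

end Pool.Agent.MP_8be872_ag.H70
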