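import Pool.Agent.MP_8be872_ag.H63.SpecB

/-! The formulas for the differential are consistent. -/

namespace Pool.Agent.MP_8be872_ag.H70

open Finset H38 H56 H63

section Rg

variable {R : Type} [Ring R] {d t h x y a z θ ψ c η m n : R}

theorem r_x (hx : d * x - x * d = x * c - c * x) (hc : d * c + c * d = -(c * c)) :
    d * (x * c - c * x) + (x * c - c * x) * d = 0 :=
  calc _ = (d * x - x * d) * c + x * (d * c + c * d) -
        ((d * c + c * d) * x - c * (d * x - x * d)) := by noncomm_ring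
    _ = 0 := by rw [hx, hc]; noncomm_ring

theorem r_c (hc : d * c + c * d = -(c * c)) : d * -(c * c) - -(c * c) * d = 0 :=
  calc _ = c * (d * c + c * d) - (d * c + c * d) * c := by noncomm_ring
    _ = 0 := by rw [hc]; noncomm_ring

theorem r_a (ha : d * a - a * d = (a * c - c * a) * t) (hc : d * c + c * d = -(c * c))
    (tt : t * t = t) (tc : t * (c * t) = c * t) :
    (d * (a * c - c * a) + (a * c - c * a) * d) * t = 0 :=
  calc _ = ((d * a - a * d) * c + a * (d * c + c * d) -
        ((d * c + c * d) * a - c * (d * a - a * d))) * t := by noncomm_ring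
    _ = (a * c - c * a) * (t * (c * t)) - a * c * c * t + c * c * a * t +
        c * (a * c - c * a) * (t * t) := by rw [ha, hc]; noncomm_ring
    _ = 0 := by rw [tt, tc]; noncomm_ring

theorem r_t (hx : d * x - x * d = x * c - c * x) (ha : d * a - a * d = (a * c - c * a) * t)
    (hc : d * c + c * d = -(c * c))
    (hθ : d * θ + θ * d = (x * a - a * x - c * θ - θ * c) * t)
    (tt : t * t = t) (tc : t * (c * t) = c * t) (tx : t * (x * t) = x * t) :
    (d * (x * a - a * x - c * θ - θ * c) - (x * a - a * x - c * θ - θ * c) * d) * t = 0 :=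
  calc _ = ((d * x - x * d) * a + x * (d * a - a * d) - ((d * a - a * d) * x + a * (d * x - x * d)) -
        ((d * c + c * d) * θ - c * (d * θ + θ * d)) -
        ((d * θ + θ * d) * c - θ * (d * c + c * d))) * t := by noncomm_ring
    _ = (x * c - c * x) * a * t + x * (a * c - c * a) * (t * t) -
        (a * c - c * a) * (t * (x * t)) - a * (x * c - c * x) * t + c * c * θ * t +
        c * (x * a - a * x - c * θ - θ * c) * (t * t) -
        (x * a - a * x - c * θ - θ * c) * (t * (c * t)) - θ * c * c * t := by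
      rw [hx, ha, hc, hθ]; noncomm_ring
    _ = 0 := by rw [tt, tc, tx]; noncomm_ring

theorem r_m (hx : d * x - x * d = x * c - c * x) (hy : d * y - y * d = y * c - c * y) :
    d * (x * y - y * x) - (x * y - y * x) * d = (x * y - y * x) * c - c * (x * y - y * x) :=
  calc _ = (d * x - x * d) * y + x * (d * y - y * d) -
        ((d * y - y * d) * x + y * (d * x - x * d)) := by noncomm_ring
    _ = _ := by rw [hx, hy]; noncomm_ring

theorem r_e (hm : d * m - m * d = m * c - c * m) (hc : d * c + c * d = -(c * c))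
    (hη : d * η + η * d = h * (m - c * η - η * c) * h) (hh : h * h = h) (ch : c * h = c)
    (hc' : h * c = c) :
    h * (d * (m - c * η - η * c) - (m - c * η - η * c) * d) * h = 0 :=
  calc _ = h * ((d * m - m * d) - ((d * c + c * d) * η - c * (d * η + η * d)) -
        ((d * η + η * d) * c - η * (d * c + c * d))) * h := by noncomm_ring
    _ = h * (m * c - c * m + c * c * η - η * c * c) * h +
        h * (c * h) * (m - c * η - η * c) * (h * h) -
        h * h * (m - c * η - η * c) * (h * c) * h := by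
      rw [hm, hc, hη]; noncomm_ring
    _ = 0 := by rw [hc', ch, hh]; noncomm_ring

theorem r_n (hx : d * x - x * d = x * c - c * x) (hy : d * y - y * d = y * c - c * y)
    (hθ : d * θ + θ * d = (x * a - a * x - c * θ - θ * c) * t)
    (hψ : d * ψ + ψ * d = (y * a - a * y - c * ψ - ψ * c) * t)
    (tt : t * t = t) (tx : t * (x * t) = x * t) (ty : t * (y * t) = y * t) :
    (d * (x * ψ + θ * y - y * θ - ψ * x) + (x * ψ + θ * y - y * θ - ψ * x) * d) * t =
      ((x * y - y * x) * a - a * (x * y - y * x) - c * (x * ψ + θ * y - y * θ - ψ * x) -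
        (x * ψ + θ * y - y * θ - ψ * x) * c) * t :=
  calc _ = ((d * x - x * d) * ψ + x * (d * ψ + ψ * d) + ((d * θ + θ * d) * y - θ * (d * y - y * d)) -
        ((d * y - y * d) * θ + y * (d * θ + θ * d)) -
        ((d * ψ + ψ * d) * x - ψ * (d * x - x * d))) * t := by noncomm_ring
    _ = (x * c - c * x) * ψ * t + x * (y * a - a * y - c * ψ - ψ * c) * (t * t) +
        (x * a - a * x - c * θ - θ * c) * (t * (y * t)) - θ * (y * c - c * y) * t -
        (y * c - c * y) * θ * t - y * (x * a - a * x - c * θ - θ * c) * (t * t) -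
        (y * a - a * y - c * ψ - ψ * c) * (t * (x * t)) + ψ * (x * c - c * x) * t := by
      rw [hx, hy, hθ, hψ]; noncomm_ring
    _ = _ := by rw [tt, tx, ty]; noncomm_ring

theorem r_z (ha : d * a - a * d = (a * c - c * a) * t) (hc : d * c + c * d = -(c * c))
    (hη : d * η + η * d = h * (m - c * η - η * c) * h)
    (hn : (d * n + n * d) * t = (m * a - a * m - c * n - n * c) * t)
    (hz : d * z - z * d = h * (η * a - a * η - n + z * c - c * z) * t)
    (tt : t * t = t) (hh : h * h = h) (ht : h * t = t) (tc : t * (c * t) = c * t)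
    (tη : t * (η * t) = η * t) (ch : c * h = c) (ah : a * h = a) (ha' : h * a = a) :
    h * (d * (η * a - a * η - n + z * c - c * z) + (η * a - a * η - n + z * c - c * z) * d) * t =
      0 :=
  calc
    _ = h * ((d * η + η * d) * a - η * (d * a - a * d) -
        ((d * a - a * d) * η + a * (d * η + η * d)) +
        ((d * z - z * d) * c + z * (d * c + c * d)) -
        ((d * c + c * d) * z - c * (d * z - z * d))) * t - h * ((d * n + n * d) * t) := by
      noncomm_ring
    _ = h * h * (m - c * η - η * c) * (h * a) * t - h * η * (a * c - c * a) * (t * t) -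
        h * (a * c - c * a) * (t * (η * t)) - h * (a * h) * (m - c * η - η * c) * (h * t) +
        h * h * (η * a - a * η - n + z * c - c * z) * (t * (c * t)) - h * z * c * c * t +
        h * c * c * z * t + h * (c * h) * (η * a - a * η - n + z * c - c * z) * (t * t) -
        h * ((m * a - a * m - c * n - n * c) * t) := by
      rw [ha, hc, hη, hn, hz]; noncomm_ring
    _ = 0 := by rw [ha', ah, ch, tt, hh, ht, tc, tη]; noncomm_ring

end Rg

section Mat

variable {N A : Type} [Fintype N] [DecidableEq N] [Ring A] {S S' S'' : N → N → Prop}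
  {M M' : Matrix N N A}

/-- The entries outside `S` vanish. -/
def Supp (S : N → N → Prop) (M : Matrix N N A) : Prop := ∀ p q, ¬S p q → M p q = 0

omit [Fintype N] [DecidableEq N] in
theorem Supp.add (h : Supp S M) (h' : Supp S M') : Supp S (M + M') := fun p q k => by
  rw [Matrix.add_apply, h p q k, h' p q k, add_zero]

omit [Fintype N] [DecidableEq N] in
theorem Supp.sub (h : Supp S M) (h' : Supp S M') : Supp S (M - M') := fun p q k => by
  rw [Matrix.sub_apply, h p q k, h' p q k, sub_zero]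

omit [Fintype N] [DecidableEq N] in
theorem Supp.neg (h : Supp S M) : Supp S (-M) := fun p q k => by
  rw [Matrix.neg_apply, h p q k, neg_zero]

omit [Fintype N] [DecidableEq N] in
theorem Supp.sum {ι : Type} [Fintype ι] {F : ι → Matrix N N A} (h : ∀ i, Supp S (F i)) :
    Supp S (∑ i, F i) := fun p q k => by
  rw [Matrix.sum_apply]
  exact Finset.sum_eq_zero fun i _ => h i p q k

omit [DecidableEq N] in
theorem Supp.mul (h : Supp S M) (h' : Supp S' M') (k : ∀ p r q, S p r → S' r q → S'' p q) :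
    Supp S'' (M * M') := fun p q e => by
  rw [Matrix.mul_apply]
  refine Finset.sum_eq_zero fun r _ => ?_
  by_cases a : S p r
  · rw [h' r q fun b => e (k p r q a b), mul_zero]
  · rw [h p r a, zero_mul]

/-- The projection to the basis vectors satisfying `b`. -/
def em (A : Type) [Ring A] (b : N → Prop) [DecidablePred b] : Matrix N N A :=
  Matrix.diagonal fun p => if b p then 1 else 0

variable {b b' : N → Prop} [DecidablePred b] [DecidablePred b']

theorem em_mul (M : Matrix N N A) (p q : N) : (em A b * M) p q = if b p then M p q else 0 := by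
  rw [em, Matrix.diagonal_mul]
  split_ifs <;> simp

theorem mul_em (M : Matrix N N A) (p q : N) : (M * em A b) p q = if b q then M p q else 0 := by
  rw [em, Matrix.mul_diagonal]
  split_ifs <;> simp

theorem Supp.em_mul (h : Supp S M) (k : ∀ p q, S p q → b p) : em A b * M = M := by
  ext p q
  rw [H70.em_mul]
  split_ifs with e
  · rfl
  · exact (h p q fun a => e (k p q a)).symm

theorem Supp.mul_em (h : Supp S M) (k : ∀ p q, S p q → b q) : M * em A b = M := by
  ext p q
  rw [H70.mul_em]
  split_ifs with e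
  · rfl
  · exact (h p q fun a => e (k p q a)).symm

theorem Supp.right (h : Supp S M) (k : ∀ p q, S p q → b q → S' p q) : Supp S' (M * em A b) := by
  intro p q e
  rw [H70.mul_em]
  split_ifs with a
  · exact h p q fun s => e (k p q s a)
  · rfl

theorem Supp.both (h : Supp S M) (k : ∀ p q, S p q → b p → b' q → S' p q) :
    Supp S' (em A b * M * em A b') := by
  intro p q e
  rw [H70.mul_em, H70.em_mul]
  split_ifs with a a'
  · exact h p q fun s => e (k p q s a' a)
  · rfl
  · rfl

theorem Supp.par (h : Supp S M) (k : ∀ p q, S p q → b q → b p) :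
    em A b * (M * em A b) = M * em A b :=
  (h.right (S' := fun p _ => b p) k).em_mul fun _ _ a => a

omit [Fintype N] in
theorem em_supp : Supp (fun p q => b p ∧ b q) (em A b) := by
  intro p q e
  by_cases k : p = q
  · subst k
    rw [em, Matrix.diagonal_apply_eq, if_neg fun a => e ⟨a, a⟩]
  · exact Matrix.diagonal_apply_ne _ k

end Mat

variable {Q : Quiv} {w v D : Fin Q.n → ℕ} {p q r : Nb Q w v D}

theorem arrow_r {τ : Arr Q ⊕ Bool} {s : Bool} (h : arrow τ p r) (h' : arrow (.inr s) r q) :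
    arrow τ p q := by
  obtain ⟨a, b, c⟩ := h'
  rcases τ with ⟨_ | e, _ | _⟩ | t <;> simp only [arrow, ← a] at h ⊢ <;> simp_all

theorem arrow_l {τ : Arr Q ⊕ Bool} {s : Bool} (h' : arrow (.inr s) p r) (h : arrow τ r q) :
    arrow τ p q := by
  obtain ⟨a, b, c⟩ := h'
  rcases τ with ⟨_ | e, _ | _⟩ | t <;> simp only [arrow, a] at h ⊢ <;> simp_all

theorem arrow_tf {o : Option (Fin Q.ne)} (h : arrow (.inl (o, true)) p r)
    (h' : arrow (.inl (o, false)) r q) : vx p = vx q := by
  rcases o with _ | e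
  · exact h.1.trans h'.1
  · exact h.2.2.1.trans h'.2.2.2.symm

theorem arrow_ft {o : Option (Fin Q.ne)} (h : arrow (.inl (o, false)) p r)
    (h' : arrow (.inl (o, true)) r q) : vx p = vx q := by
  rcases o with _ | e
  · exact h.1.trans h'.1
  · exact h.2.2.1.trans h'.2.2.2.symm

theorem dsq_map (Q : Quiv) (N A A' : Type) [Fintype N] [Ring A] [Ring A'] (h : A →+* A')
    (Y : Kd Q → Matrix N N A) (k : Kd Q) :
    (Phi Q Y k).map h = Phi Q (fun k => (Y k).map h) k := by
  classical
  change h.mapMatrix (Phi Q Y k) = Phi Q (fun k => h.mapMatrix (Y k)) k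
  rcases k with (ε | _ | _) | (ε | _ | _) <;>
    simp only [Phi, map_sub, map_add, map_mul, map_neg, map_sum]

theorem dsq : DSqStmt := by
  refine ⟨dsq_map, fun Q w v D A _ d Y hY hd => ?_⟩
  obtain ⟨δ, hδ⟩ : ∃ δ : Matrix (Nb Q w v D) (Nb Q w v D) A, δ = Matrix.diagonal fun _ => d :=
    ⟨_, rfl⟩
  have dl : ∀ (M : Matrix (Nb Q w v D) (Nb Q w v D) A) p q, (δ * M) p q = d * M p q :=
    fun M p q => by rw [hδ, Matrix.diagonal_mul]
  have dr : ∀ (M : Matrix (Nb Q w v D) (Nb Q w v D) A) p q, (M * δ) p q = M p q * d :=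
    fun M p q => by rw [hδ, Matrix.mul_diagonal]
  have ev : ∀ τ M, Supp (shape radP (.inl τ)) M →
      (∀ p q, shape radP (.inl τ) p q → M p q = Phi Q Y (.inl τ) p q) →
      δ * Y (.inl τ) - Y (.inl τ) * δ = M := fun τ M h1 h2 => by
    ext p q
    rw [Matrix.sub_apply, dl, dr]
    by_cases e : shape radP (.inl τ) p q
    · rw [h2 p q e]
      exact hd _ p q e
    · rw [h1 p q e, hY _ p q e, mul_zero, zero_mul, sub_zero]
  have od : ∀ τ M, Supp (shape radP (.inr τ)) M →
      (∀ p q, shape radP (.inr τ) p q → M p q = Phi Q Y (.inr τ) p q) →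
      δ * Y (.inr τ) + Y (.inr τ) * δ = M := fun τ M h1 h2 => by
    ext p q
    rw [Matrix.add_apply, dl, dr]
    by_cases e : shape radP (.inr τ) p q
    · rw [h2 p q e]
      exact hd _ p q e
    · rw [h1 p q e, hY _ p q e, mul_zero, zero_mul, add_zero]
  obtain ⟨t, ht⟩ : ∃ t, t = em A fun p : Nb Q w v D => blk p = 0 := ⟨_, rfl⟩
  obtain ⟨h, hh⟩ : ∃ h, h = em A fun p : Nb Q w v D => blk p < 2 := ⟨_, rfl⟩
  have mt : ∀ (M : Matrix (Nb Q w v D) (Nb Q w v D) A) p q, blk q = 0 → (M * t) p q = M p q :=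
    fun M p q e => by rw [ht, mul_em, if_pos e]
  have mh : ∀ (M : Matrix (Nb Q w v D) (Nb Q w v D) A) p q, blk q < 2 → (M * h) p q = M p q :=
    fun M p q e => by rw [hh, mul_em, if_pos e]
  have hm : ∀ (M : Matrix (Nb Q w v D) (Nb Q w v D) A) p q, blk p < 2 → (h * M) p q = M p q :=
    fun M p q e => by rw [hh, em_mul, if_pos e]
  have sx : ∀ ε, Supp (fun p q => arrow (.inl ε) p q ∧ radP p q) (Y (kx ε)) := fun ε => hY (kx ε)
  have sa : Supp (fun p q => arrow (.inr true) p q ∧ blk q = 0) (Y ka) := hY ka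
  have sz : Supp (fun p q => arrow (.inr false) p q ∧ blk q = 0) (Y kz) := hY kz
  have st : ∀ ε, Supp (fun p q => arrow (.inl ε) p q ∧ blk q = 0) (Y (kt ε)) := fun ε => hY (kt ε)
  have sc : Supp (fun p q => arrow (.inr true) p q ∧ radP p q) (Y kc) := hY kc
  have se : Supp (fun p q => arrow (.inr false) p q ∧ radP p q) (Y ke) := hY ke
  have tt : t * t = t := by rw [ht]; exact em_supp.mul_em fun _ _ a => a.2
  have h2 : h * h = h := by rw [hh]; exact em_supp.mul_em fun _ _ a => a.2
  have h3 : h * t = t := by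
    rw [hh, ht]
    exact em_supp.em_mul fun _ _ a => by omega
  have tx : ∀ ε, t * (Y (kx ε) * t) = Y (kx ε) * t := fun ε => by
    rw [ht]; exact (sx ε).par fun _ _ a => a.2
  have tc : t * (Y kc * t) = Y kc * t := by rw [ht]; exact sc.par fun _ _ a => a.2
  have te : t * (Y ke * t) = Y ke * t := by rw [ht]; exact se.par fun _ _ a => a.2
  have ch : Y kc * h = Y kc := by rw [hh]; exact sc.mul_em fun _ _ a => a.1.2.2
  have hc : h * Y kc = Y kc := by rw [hh]; exact sc.em_mul fun _ _ a => a.1.2.1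
  have ah : Y ka * h = Y ka := by rw [hh]; exact sa.mul_em fun _ _ a => a.1.2.2
  have ha : h * Y ka = Y ka := by rw [hh]; exact sa.em_mul fun _ _ a => a.1.2.1
  have dx : ∀ ε, δ * Y (kx ε) - Y (kx ε) * δ = Y (kx ε) * Y kc - Y kc * Y (kx ε) := fun ε =>
    ev _ _ (((sx ε).mul sc fun _ _ _ a b => ⟨arrow_r a.1 b.1, fun e => a.2 (b.2 e)⟩).sub
      (sc.mul (sx ε) fun _ _ _ a b => ⟨arrow_l a.1 b.1, fun e => a.2 (b.2 e)⟩)) fun _ _ _ => rfl
  have dc : δ * Y kc + Y kc * δ = -(Y kc * Y kc) :=
    od _ _ (sc.mul sc fun _ _ _ a b => ⟨arrow_r a.1 b.1, fun e => a.2 (b.2 e)⟩).neg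
      fun _ _ _ => rfl
  have da : δ * Y ka - Y ka * δ = Phi Q Y ka * t := by
    refine ev _ _ ?_ fun p q e => mt _ p q e.2
    rw [ht]
    exact Supp.right (S := arrow (.inr true)) ((sa.mul sc fun _ _ _ a b => arrow_r a.1 b.1).sub
      (sc.mul sa fun _ _ _ a b => arrow_r a.1 b.1)) fun _ _ a b => ⟨a, b⟩
  have dt : ∀ ε, δ * Y (kt ε) + Y (kt ε) * δ = Phi Q Y (kt ε) * t := fun ε => by
    refine od _ _ ?_ fun p q e => mt _ p q e.2
    rw [ht]
    exact Supp.right (S := arrow (.inl ε))
      (((((sx ε).mul sa fun _ _ _ a b => arrow_r a.1 b.1).sub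
        (sa.mul (sx ε) fun _ _ _ a b => arrow_l a.1 b.1)).sub
        (sc.mul (st ε) fun _ _ _ a b => arrow_l a.1 b.1)).sub
        ((st ε).mul sc fun _ _ _ a b => arrow_r a.1 b.1)) fun _ _ a b => ⟨a, b⟩
  have de : δ * Y ke + Y ke * δ = h * Phi Q Y ke * h := by
    refine od _ _ ?_ fun p q e => (mh _ p q e.1.2.2).trans (hm _ p q e.1.2.1)
    rw [hh]
    exact Supp.both (S := fun p q => vx p = vx q ∧ radP p q)
      (((Supp.sum fun o =>
        ((sx (o, true)).mul (sx (o, false)) fun _ _ _ a b =>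
          ⟨arrow_tf a.1 b.1, fun e => a.2 (b.2 e)⟩).sub
        ((sx (o, false)).mul (sx (o, true)) fun _ _ _ a b =>
          ⟨arrow_ft a.1 b.1, fun e => a.2 (b.2 e)⟩)).sub
        (sc.mul se fun _ _ _ a b => ⟨a.1.1.trans b.1.1, fun e => a.2 (b.2 e)⟩)).sub
        (se.mul sc fun _ _ _ a b => ⟨a.1.1.trans b.1.1, fun e => a.2 (b.2 e)⟩))
      fun _ _ s a b => ⟨⟨s.1, a, b⟩, s.2⟩
  have dz : δ * Y kz - Y kz * δ = h * Phi Q Y kz * t := by
    refine ev _ _ ?_ fun p q e => (mt _ p q e.2).trans (hm _ p q e.1.2.1)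
    rw [hh, ht]
    exact Supp.both (S := fun p q => vx p = vx q)
      (((((se.mul sa fun _ _ _ a b => a.1.1.trans b.1.1).sub
        (sa.mul se fun _ _ _ a b => a.1.1.trans b.1.1)).sub (Supp.sum fun o =>
        ((((sx (o, true)).mul (st (o, false)) fun _ _ _ a b => arrow_tf a.1 b.1).add
          ((st (o, true)).mul (sx (o, false)) fun _ _ _ a b => arrow_tf a.1 b.1)).sub
          ((sx (o, false)).mul (st (o, true)) fun _ _ _ a b => arrow_ft a.1 b.1)).sub
          ((st (o, false)).mul (sx (o, true)) fun _ _ _ a b => arrow_ft a.1 b.1))).add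
        (sz.mul sc fun _ _ _ a b => a.1.1.trans b.1.1)).sub
        (sc.mul sz fun _ _ _ a b => a.1.1.trans b.1.1))
      fun _ _ s a b => ⟨⟨s, a, by omega⟩, b⟩
  have dm : ∀ m, m = ∑ o, (Y (kx (o, true)) * Y (kx (o, false)) -
      Y (kx (o, false)) * Y (kx (o, true))) → δ * m - m * δ = m * Y kc - Y kc * m := by
    rintro m rfl
    simp only [Finset.mul_sum, Finset.sum_mul, ← Finset.sum_sub_distrib]
    exact Finset.sum_congr rfl fun o _ => r_m (dx _) (dx _)
  have dn : ∀ m n, m = ∑ o, (Y (kx (o, true)) * Y (kx (o, false)) -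
      Y (kx (o, false)) * Y (kx (o, true))) →
      n = ∑ o, (Y (kx (o, true)) * Y (kt (o, false)) + Y (kt (o, true)) * Y (kx (o, false)) -
        Y (kx (o, false)) * Y (kt (o, true)) - Y (kt (o, false)) * Y (kx (o, true))) →
      (δ * n + n * δ) * t = (m * Y ka - Y ka * m - Y kc * n - n * Y kc) * t := by
    rintro m n rfl rfl
    simp only [Finset.mul_sum, Finset.sum_mul, ← Finset.sum_sub_distrib, ← Finset.sum_add_distrib]
    exact Finset.sum_congr rfl fun o _ => r_n (dx _) (dx _) (dt _) (dt _) tt (tx _) (tx _)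
  have fe : ∀ (M : Matrix (Nb Q w v D) (Nb Q w v D) A) p q,
      d * M p q + M p q * d = (δ * M + M * δ) p q := fun M p q => by
    rw [Matrix.add_apply, dl, dr]
  have fo : ∀ (M : Matrix (Nb Q w v D) (Nb Q w v D) A) p q,
      d * M p q - M p q * d = (δ * M - M * δ) p q := fun M p q => by
    rw [Matrix.sub_apply, dl, dr]
  rintro ((ε | _ | _) | (ε | _ | _)) p q e
  · have z : δ * Phi Q Y (kx ε) + Phi Q Y (kx ε) * δ = 0 := r_x (dx ε) dc
    exact (fe _ p q).trans (by rw [z]; rfl)
  · have z : h * (δ * Phi Q Y kz + Phi Q Y kz * δ) * t = 0 :=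
      r_z da dc de (dn _ _ rfl rfl) dz tt h2 h3 tc te ch ah ha
    exact (fe _ p q).trans (((mt _ p q e.2).trans (hm _ p q e.1.2.1)).symm.trans (by rw [z]; rfl))
  · have z : (δ * Phi Q Y ka + Phi Q Y ka * δ) * t = 0 := r_a da dc tt tc
    exact (fe _ p q).trans ((mt _ p q e.2).symm.trans (by rw [z]; rfl))
  · have z : (δ * Phi Q Y (kt ε) - Phi Q Y (kt ε) * δ) * t = 0 :=
      r_t (dx ε) da dc (dt ε) tt tc (tx ε)
    exact (fo _ p q).trans ((mt _ p q e.2).symm.trans (by rw [z]; rfl))
  · have z : h * (δ * Phi Q Y ke - Phi Q Y ke * δ) * h = 0 := r_e (dm _ rfl) dc de h2 ch hc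
    exact (fo _ p q).trans
      (((mh _ p q e.1.2.2).trans (hm _ p q e.1.2.1)).symm.trans (by rw [z]; rfl))
  · have z : δ * Phi Q Y kc - Phi Q Y kc * δ = 0 := r_c dc
    exact (fo _ p q).trans (by rw [z]; rfl)

end Pool.Agent.MP_8be872_ag.H70
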