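import Pool.Agent.MP_8be872_ag.H63.LocA
import Pool.Agent.MP_8be872_ag.H63.SpecA

/-! Tools for the acyclicity of the covered part of the Čech complex. -/

namespace Pool.Agent.MP_8be872_ag.H70

open Finset H38 H56 H63 MvPolynomial

set_option linter.unusedSectionVars false

section Gen

variable {E O : Type} [Fintype E] [Fintype O] [DecidableEq E] [DecidableEq O]
  {P : (E ⊕ O → ℕ) → Prop}

theorem sg_false : sg false = 1 := rfl

theorem sg_true : sg true = -1 := rfl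

theorem mle {P' : (E ⊕ O → ℕ) → Prop} {x : Sp E O} (hx : x ∈ mono P) (h : ∀ μ, P μ → P' μ) :
    x ∈ mono P' := mono_le h hx

theorem wle {P' : (E ⊕ O → ℕ) → Prop} {m : Module.End ℂ (Sp E O)} (hm : m ∈ words P)
    (h : ∀ μ, P μ → P' μ) : m ∈ words P' := words_le h hm

theorem words_false {m : Module.End ℂ (Sp E O)} (hm : m ∈ words fun _ => False) : m = 0 := by
  simpa [words] using hm

theorem dr_comm (g : E ⊕ O) {a : Bool} {m : Module.End ℂ (Sp E O)}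
    (hm : m ∈ words fun ν => ν g = 0 ∧ od ν = a) :
    dr g * m = sg (g.isRight && a) • (m * dr g) :=
  sub_eq_zero.1 (words_false (dr_br g hm fun μ h => by simp at h))

theorem dr_vf (g₀ : E ⊕ O) {δ : E ⊕ O → Module.End ℂ (Sp E O)}
    (h : ∀ g, δ g ∈ words fun ν => ν g₀ = 0 ∧ od ν = !g.isRight) :
    dr g₀ * vf δ = sg g₀.isRight • (vf δ * dr g₀) := by
  rw [vf, Finset.mul_sum, Finset.sum_mul, Finset.smul_sum]
  refine Finset.sum_congr rfl fun g _ => ?_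
  rw [← mul_assoc, dr_comm g₀ (h g), smul_mul_assoc, mul_assoc, dr_mul_dr g₀ g, mul_smul_comm,
    smul_smul, mul_assoc]
  congr 1
  cases g₀.isRight <;> cases g.isRight <;> simp [sg]

theorem od_even {μ : E ⊕ O → ℕ} (h : ∀ o, μ (.inr o) = 0) : od μ = false := by
  simp [od, h]

theorem mul_words {q : MvPolynomial E ℂ} (hq : (pol q : Sp E O) ∈ mono P) :
    (mul q : Module.End ℂ (Sp E O)) ∈ words fun μ => P μ ∧ ∀ o, μ (.inr o) = 0 := by
  refine mul_mem_words_of_pol (pol_mem.2 fun m hm => ⟨pol_mem.1 hq m hm, fun o => ?_⟩)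
  simp [ex]

theorem pol_inj {p q : MvPolynomial E ℂ} (h : (pol p : Sp E O) = pol q) : p = q := by
  simpa [pol] using congrFun h ∅

theorem pderiv_zero {q : MvPolynomial E ℂ} (e : E)
    (hq : (pol q : Sp E O) ∈ mono fun μ => μ (.inl e) = 0) : pderiv e q = 0 := by
  simpa [dr, pol] using congrFun (dr_eq_zero (.inl e) hq) ∅

theorem vf_mul_comm {δ : E ⊕ O → Module.End ℂ (Sp E O)} (hδ : ∀ g, δ g ∈ words fun _ => True)
    {q : MvPolynomial E ℂ} (hq : (pol q : Sp E O) ∈ mono (sup fun g => δ g = 0)) :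
    vf δ * mul q = mul q * vf δ := by
  rw [← sub_eq_zero, vf_mul hδ]
  refine Finset.sum_eq_zero fun e _ => ?_
  by_cases h : δ (.inl e) = 0
  · rw [h, mul_zero]
  · rw [pderiv_zero (O := O) e (mono_le (fun μ hμ => by
      by_contra k
      exact h (hμ _ k)) hq)]
    exact mul_eq_zero_of_left (map_zero mulA) _

theorem eval_congr' {A : E ⊕ O → Prop} {q : MvPolynomial E ℂ}
    (hq : (pol q : Sp E O) ∈ mono (sup A)) {y y' : E → ℂ} (h : ∀ e, A (.inl e) → y e = y' e) :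
    eval y q = eval y' q := by
  rw [eval_eq, eval_eq]
  refine Finset.sum_congr rfl fun m hm => ?_
  congr 1
  refine Finset.prod_congr rfl fun e he => ?_
  rw [h e (pol_mem.1 hq m (mem_support_iff.1 hm) (.inl e) (Finsupp.mem_support_iff.1 he))]

theorem kill_self {K : E ⊕ O → Prop} {q : MvPolynomial E ℂ}
    (hq : (pol q : Sp E O) ∈ mono (sup fun g => ¬K g)) : kill K q = q := by
  refine pol_inj (O := O) ?_
  rw [(kill_sub K q).2]
  exact proj_eq_self (mono_le (fun μ hμ ⟨g, hg, hg'⟩ => hμ g hg' hg) hq)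

theorem kill_mem (K : E ⊕ O → Prop) (q : MvPolynomial E ℂ) :
    (pol (kill K q) : Sp E O) ∈ mono (sup fun g => ¬K g) := by
  rw [(kill_sub K q).2]
  exact mono_le (fun μ hμ g hg hK => hμ ⟨g, hK, hg⟩) (proj_mem _)

theorem cnt_congr {A : E ⊕ O → Prop} {μ ν : E ⊕ O → ℕ} (h : ∀ g, A g → μ g = ν g) :
    cnt A μ = cnt A ν := by
  refine Finset.sum_congr rfl fun g _ => ?_
  split_ifs with k
  · exact h g k
  · rfl

theorem cnt_le {A : E ⊕ O → Prop} (hA : ∀ g, A g → g.isRight) (S : Finset O) (m : E →₀ ℕ) :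
    cnt A (ex S m) ≤ Fintype.card O := by
  rw [cnt, Fintype.sum_sum_type, Finset.sum_eq_zero fun e _ => if_neg fun k => by simpa using hA _ k,
    zero_add]
  refine (Finset.sum_le_card_nsmul _ _ 1 fun o _ => ?_).trans (by simp)
  simp only [ex, Sum.elim_inr]
  split_ifs <;> simp

theorem sum_proj {deg : (E ⊕ O → ℕ) → ℕ} {N : ℕ} (h : ∀ S m, deg (ex S m) < N) (x : Sp E O) :
    ∑ k ∈ range N, proj (fun μ => deg μ = k) x = x := by
  funext S
  ext m
  rw [Finset.sum_apply, coeff_sum]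
  simp only [coeff_proj]
  rw [Finset.sum_ite_eq, if_pos (Finset.mem_range.2 (h S m))]

end Gen

section Loc

variable {E O J Γ : Type} [Fintype E] [Fintype O] [Fintype J] [DecidableEq E] [DecidableEq O]
  [DecidableEq J] [AddCommGroup Γ] {Al : Gn E O J → Prop} {c : Gn E O J → Γ}
  {δ : Gn E O J → Op E O J} {ω : Op E O J} {f : J → MvPolynomial (E ⊕ J) ℂ}
  {x : Sp (E ⊕ J) (O ⊕ J)}

theorem proj_rel_odd {P : (Gn E O J → ℕ) → Prop}
    (hP : ∀ μ ν : Gn E O J → ℕ, (∀ o, μ (.inr o) = ν (.inr o)) → P μ → P ν) (hx : x ∈ rel f) :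
    proj P x ∈ rel f := by
  refine proj_rel (A := univ) (fun j _ m _ μ _ => ⟨hP _ _ fun o => ?_, hP _ _ fun o => ?_⟩)
    (mono_le (P := fun _ => True) (fun μ _ j _ => mem_univ j) (by rw [mono_true]; trivial)) hx
  all_goals simp [ex]

theorem ex_cnt {A : Gn E O J → Prop} (hA : ∀ g, A g → g.isRight)
    {Q₀ Q₁ : (Gn E O J → ℕ) → Prop} {D D₀ : Op E O J} (hD : ∀ x ∈ mono Q₀, D x ∈ mono Q₁)
    (hDB : ∀ x ∈ rel f, D x ∈ rel f) (hsq : D * D = 0) (h00 : ∀ x ∈ rel f, D₀ x ∈ rel f)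
    (h0 : ∀ k, ∀ y ∈ mono fun μ => cnt A μ = k, D₀ y ∈ (mono fun μ => cnt A μ = k) ∧
      D y - D₀ y ∈ mono fun μ => k < cnt A μ)
    (hex : Ex D₀ (mono Q₀) (mono Q₁) (rel f)) : Ex D (mono Q₀) (mono Q₁) (rel f) := by
  have hs := sum_proj (deg := cnt A) (N := Fintype.card (O ⊕ J) + 1)
    fun S m => Nat.lt_succ_of_le (cnt_le hA S m)
  have pm : ∀ (k : ℕ) (x : Sp (E ⊕ J) (O ⊕ J)),
      proj (fun μ => cnt A μ = k) x ∈ mono fun μ => cnt A μ = k := fun k x => proj_mem x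
  have ps : ∀ (k : ℕ), ∀ x ∈ mono fun μ => cnt A μ = k, proj (fun μ => cnt A μ = k) x = x :=
    fun k x hx => proj_eq_self hx
  have pz : ∀ (j : ℕ) (U : ℕ → Prop), ¬U j → ∀ x ∈ mono fun μ => U (cnt A μ),
      proj (fun μ => cnt A μ = j) x = 0 :=
    fun j U hU x hx => proj_eq_zero (mle hx fun μ h h' => hU (h' ▸ h))
  refine ex_of_graded D₀ (fun k => proj fun μ => cnt A μ = k) (Fintype.card (O ⊕ J) + 1)
    (fun x _ => by rw [hs, sub_self]; exact zero_mem _)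
    (fun x _ => ⟨_, by rw [hs, sub_self]; exact zero_mem _⟩) (fun k x hx => proj_mem_of hx)
    (fun k x hx => proj_mem_of hx) (fun k x hx => proj_rel_odd (fun μ ν h e => ?_) hx)
    (fun j k x => ?_) hD (fun x _ hx => hDB x hx) (fun x _ => ?_) (fun j k x _ => ?_)
    (fun j k hjk x _ => ?_) (fun x _ hx => h00 x hx) hex
  · rw [← e]
    refine cnt_congr fun g hg => ?_
    obtain ⟨o, rfl⟩ := Sum.isRight_iff.1 (hA g hg)
    exact (h o).symm
  · split_ifs with e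
    · rw [e]; exact ps k _ (pm k x)
    · exact pz j (· = k) e _ (pm k x)
  · rw [← Module.End.mul_apply, hsq]; exact zero_mem _
  · have h1 := (h0 k _ (pm k x)).1
    split_ifs with e
    · rw [e, ps k _ h1, sub_self]; exact zero_mem _
    · rw [pz j (· = k) e _ h1, sub_self]
      exact zero_mem _
  · rw [pz j (k < ·) hjk.not_gt _ (h0 k _ (pm k x)).2]
    exact zero_mem _

theorem dl_ev (h : Good Al c δ ω f) (j : J) : dl δ f (ev j) = 0 := h.dz _ (h.alE j)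

theorem dl_sup (h : Good Al c δ ω f) (g : Gn E O J) :
    dl δ f g ∈ words fun ν => ∀ g', ν g' ≠ 0 → Al g' ∨ (g' = g ∧ g.isLeft) := by
  have h1 : δ g ∈ words fun ν => ∀ g', ν g' ≠ 0 → Al g' ∨ (g' = g ∧ g.isLeft) :=
    words_le (fun μ hμ g' hg => Or.inl (hμ.1 g' hg)) (h.dw g)
  rcases g with (e | j) | o
  · exact h1
  · have h2 : (gn (tv j) : Op E O J) ∈ words (sup fun g' => Al g' ∨ g' = tv j) :=
      gn_mem_words (sup_single.2 (Or.inr rfl))
    have h3 := mul_mem_words (P'' := sup fun g' => Al g' ∨ g' = tv j) h2 h2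
      fun a b ha hb => sup_add.2 ⟨ha, hb⟩
    have h4 := mul_mem_words (P'' := sup fun g' => Al g' ∨ g' = tv j) h3 (h.uu_mem j)
      fun a b ha hb => sup_add.2 ⟨ha, fun g hg => Or.inl (hb.1 g hg)⟩
    exact neg_mem (words_le (fun μ hμ g' hg => (hμ g' hg).imp_right fun e => ⟨e, rfl⟩) h4)
  · exact h1

theorem dl_free (h : Good Al c δ ω f) {g₀ : Gn E O J} (h0 : ¬Al g₀) (h1 : dl δ f g₀ = 0)
    (g : Gn E O J) : dl δ f g ∈ words fun ν => ν g₀ = 0 ∧ od ν = !g.isRight := by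
  by_cases e : g₀ = g
  · rw [← e, h1]; exact zero_mem _
  · refine words_and (words_le (fun μ hμ => ?_) (dl_sup h g)) (h.dl_odd g)
    by_contra k
    exact (hμ _ k).elim h0 fun k' => e k'.1

theorem Dloc_pat (h : Good Al c δ 0 f) {J₁ J₂ : Finset J} (hd : Disjoint J₂ J₁)
    {P : (Gn E O J → ℕ) → Prop}
    (hP : ∀ μ ν : Gn E O J → ℕ, (∀ j ∈ J₂, μ (ev j) = ν (ev j)) → P μ → P ν) (hx : x ∈ mono P) :
    Dloc δ 0 f J₁ x ∈ mono P := by
  rw [h.Dloc_eq, add_zero, LinearMap.add_apply, LinearMap.sum_apply]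
  refine add_mem (vf_mem (Pg := fun g ν => ∀ j, g ≠ ev j ∧ ν (ev j) = 0) (fun g => ?_) hx
    fun g μ ν h1 h2 => hP _ _ (fun j _ => ?_) h1) (sum_mem fun i hi => gn_mem _ hx
      fun μ hμ => hP _ _ (fun j hj => ?_) hμ)
  · by_cases e : ∃ j, g = ev j
    · obtain ⟨j, rfl⟩ := e
      rw [dl_ev h]; exact zero_mem _
    · refine words_le (fun μ hμ j => ⟨fun k => e ⟨j, k⟩, ?_⟩) (dl_sup h g)
      by_contra k
      exact (hμ _ k).elim (h.alE j) fun k' => e ⟨j, k'.1.symm⟩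
  · rw [Pi.add_apply, Pi.add_apply, (h2 j).2, Pi.single_eq_of_ne (h2 j).1.symm, zero_add, add_zero]
  · have : (ev j : Gn E O J) ≠ ev i := fun k => by
      obtain rfl : j = i := by simpa using k
      exact Finset.disjoint_left.1 hd hj hi
    rw [Pi.add_apply, Pi.single_eq_of_ne this, add_zero]

theorem cech_plus {J₀ J₁ : Finset J} {μ ν : Gn E O J → ℕ} (h : cech Al J₀ J₁ μ)
    (hν : ∀ g, ν g ≠ 0 → Al g ∨ ∃ j, g = tv j ∧ μ (ev j) ≠ 0) : cech Al J₀ J₁ (ν + μ) := by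
  have up : ∀ j, μ (ev j) ≠ 0 → (ν + μ) (ev j) ≠ 0 := fun j hj => by
    rw [Pi.add_apply]; omega
  refine ⟨fun g hg => ?_, fun j hj => up j (h.2.1 j hj), h.2.2.imp up⟩
  by_cases k : ν g = 0
  · rw [Pi.add_apply, k, zero_add] at hg
    exact (h.1 g hg).imp_right (Or.imp_left fun ⟨j, e, hj⟩ => ⟨j, e, up j hj⟩)
  · exact (hν g k).imp_right fun ⟨j, e, hj⟩ => Or.inl ⟨j, e, up j hj⟩

theorem cech_minus {J₀ J₁ : Finset J} {μ : Gn E O J → ℕ} {g₀ : Gn E O J}
    (h : cech Al J₀ J₁ (μ + Pi.single g₀ 1)) (h1 : ∀ j, μ (tv j) ≠ 0 → ev j ≠ g₀)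
    (h2 : ∀ j ∈ J₀, ev j ≠ g₀) (h3 : ∃ j, μ (ev j) ≠ 0) : cech Al J₀ J₁ μ := by
  have dn : ∀ j, ev j ≠ g₀ → (μ + Pi.single g₀ 1 : Gn E O J → ℕ) (ev j) ≠ 0 → μ (ev j) ≠ 0 :=
    fun j e hj => by rwa [Pi.add_apply, Pi.single_eq_of_ne e, add_zero] at hj
  refine ⟨fun g hg => ?_, fun j hj => dn j (h2 j hj) (h.2.1 j hj), h3⟩
  refine (h.1 g (by rw [Pi.add_apply]; omega)).imp_right (Or.imp_left ?_)
  rintro ⟨j, rfl, hj⟩
  exact ⟨j, rfl, dn j (h1 j hg) hj⟩

/-- The generator of the relations. -/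
noncomputable def LL (f : J → MvPolynomial (E ⊕ J) ℂ) (j : J) : Op E O J :=
  mul (f j * X (.inr j) - 1) * gn (ev j)

theorem LL_rel (j : J) (x : Sp (E ⊕ J) (O ⊕ J)) : LL f j x ∈ rel f := by
  rw [rel_eq]
  exact Submodule.mem_iSup_of_mem j ⟨x, rfl⟩

theorem LL_mem (hf : ∀ j, (pol (f j) : Sp (E ⊕ J) (O ⊕ J)) ∈ mono tfree) {i j : J} (hij : j ≠ i) :
    (LL f j : Op E O J) ∈ words fun ν => (ν (tv i) = 0 ∧ ν (ev i) = 0) ∧ od ν = true := by
  have e : (mul (f j * X (.inr j) - 1) : Op E O J) = mul (f j) * gn (tv j) - 1 := by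
    change mulA _ = mulA _ * mulA _ - 1
    rw [map_sub, map_mul, map_one]
  have h1 : (gn (tv j) : Op E O J) ∈ words fun ν => ν (tv i) = 0 ∧ ∀ o, ν (.inr o) = 0 :=
    gn_mem_words ⟨Pi.single_eq_of_ne (by simpa using hij.symm) _,
      fun o => Pi.single_eq_of_ne (by simp) _⟩
  have h2 := mul_mem_words (P'' := fun ν => ν (tv i) = 0 ∧ ∀ o, ν (.inr o) = 0)
    (mul_words (hf j)) h1 fun a b ha hb => ⟨by rw [Pi.add_apply, ha.1 i, hb.1],
      fun o => by rw [Pi.add_apply, ha.2 o, hb.2 o]⟩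
  have h3 := sub_mem h2 (one_mem_words ⟨rfl, fun _ => rfl⟩)
  have h4 : (gn (ev j) : Op E O J) ∈
      words fun ν => (ν (tv i) = 0 ∧ ν (ev i) = 0) ∧ od ν = true :=
    gn_mem_words ⟨⟨Pi.single_eq_of_ne (by simp) _,
      Pi.single_eq_of_ne (by simpa using hij.symm) _⟩, od_single _⟩
  rw [LL, e]
  exact mul_mem_words h3 h4 fun a b ha hb => ⟨⟨by rw [Pi.add_apply, ha.1, hb.1.1],
    by rw [Pi.add_apply, ha.2, hb.1.2]⟩, by rw [od_add, od_even ha.2, hb.2]; rfl⟩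

theorem rel_dec (hf : ∀ j, (pol (f j) : Sp (E ⊕ J) (O ⊕ J)) ∈ mono tfree) (i : J)
    (hx : x ∈ rel f) : ∃ w, ∀ ρ : Op E O J, (∀ j, j ≠ i → LL f j * ρ = ρ * LL f j) →
      dr (ev i) (ρ (x - LL f i w)) ∈ rel f := by
  rw [rel_eq] at hx
  induction hx using Submodule.iSup_induction' with
  | mem j y hy =>
    obtain ⟨v, rfl⟩ := hy
    by_cases e : j = i
    · subst e
      refine ⟨v, fun ρ _ => ?_⟩
      rw [LL, sub_self, map_zero, map_zero]
      exact zero_mem _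
    · refine ⟨0, fun ρ hρ => ?_⟩
      have h1 := dr_comm (ev i) (wle (LL_mem (O := O) hf e) fun μ hμ => ⟨hμ.1.2, hμ.2⟩)
      have h2 : ρ (LL f j v) = LL f j (ρ v) := (LinearMap.congr_fun (hρ j e) v).symm
      have h3 := LinearMap.congr_fun h1 (ρ v)
      rw [Module.End.mul_apply, LinearMap.smul_apply, Module.End.mul_apply] at h3
      rw [map_zero, sub_zero]
      change dr (ev i) (ρ (LL f j v)) ∈ _
      rw [h2, h3]
      exact Submodule.smul_mem _ _ (LL_rel j _)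
  | zero => exact ⟨0, fun ρ _ => by simp⟩
  | add y y' _ _ hy hy' =>
    obtain ⟨w, hw⟩ := hy
    obtain ⟨w', hw'⟩ := hy'
    refine ⟨w + w', fun ρ hρ => ?_⟩
    have e : y + y' - LL f i (w + w') = (y - LL f i w) + (y' - LL f i w') := by
      rw [map_add]; abel
    rw [e, map_add, map_add]
    exact add_mem (hw ρ hρ) (hw' ρ hρ)

end Loc

end Pool.Agent.MP_8be872_ag.H70
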